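import Pool.Agent.L0h50.NR.Stm

/-! Module DEN of project NR (helper50), last part: from the ideals to the elements. -/

set_option autoImplicit false

open NumberField FractionalIdeal nonZeroDivisors

namespace Pool.Agent.L0h48.NR

variable {F : Type} [Field F] [NumberField F]

theorem mem_J {J c : Ideal (𝓞 F)} {s : 𝓞 F} (hsc : J * c = Ideal.span {s}) :
    (s : F) ∈ (J : FractionalIdeal (𝓞 F)⁰ F) := by
  have h0 : s ∈ Ideal.span ({s} : Set (𝓞 F)) := Ideal.mem_span_singleton_self s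
  rw [← hsc] at h0
  have h1 : J * c ≤ J := Ideal.mul_le_left
  exact mem_coeIdeal_of_mem _ (h1 h0)

theorem ex_rho {J : Ideal (𝓞 F)} {s : 𝓞 F} {x : F}
    (hJ2 : (J : FractionalIdeal (𝓞 F)⁰ F) * J * (1 + spanSingleton (𝓞 F)⁰ x) = 1)
    (hsJ' : (s : F) ∈ (J : FractionalIdeal (𝓞 F)⁰ F)) : ∃ ρ : 𝓞 F, (ρ : F) = x * s ^ 2 := by
  have hρ : (s : F) * s * x ∈ (1 : FractionalIdeal (𝓞 F)⁰ F) := by
    rw [← hJ2]
    refine mul_mem_mul (mul_mem_mul hsJ' hsJ') ?_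
    rw [← sup_eq_add]
    exact (le_sup_right : spanSingleton (𝓞 F)⁰ x ≤ _) (mem_spanSingleton_self _ x)
  obtain ⟨ρ, hρ⟩ := (mem_one_iff _).1 hρ
  refine ⟨ρ, ?_⟩
  have : (ρ : F) = s * s * x := hρ
  rw [this]; ring

theorem ex_t {J : Ideal (𝓞 F)} {s : 𝓞 F} {x y : F}
    (hJ3 : (J : FractionalIdeal (𝓞 F)⁰ F) * J * J *
      (1 + spanSingleton (𝓞 F)⁰ x + spanSingleton (𝓞 F)⁰ y) = 1)
    (hsJ' : (s : F) ∈ (J : FractionalIdeal (𝓞 F)⁰ F)) : ∃ t : 𝓞 F, (t : F) = y * s ^ 3 := by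
  have ht : (s : F) * s * s * y ∈ (1 : FractionalIdeal (𝓞 F)⁰ F) := by
    rw [← hJ3]
    refine mul_mem_mul (mul_mem_mul (mul_mem_mul hsJ' hsJ') hsJ') ?_
    rw [← sup_eq_add (1 + _)]
    exact (le_sup_right : spanSingleton (𝓞 F)⁰ y ≤ _) (mem_spanSingleton_self _ y)
  obtain ⟨t, ht⟩ := (mem_one_iff _).1 ht
  refine ⟨t, ?_⟩
  have : (t : F) = s * s * s * y := ht
  rw [this]; ring

/-- the ideal `c ^ 2` -/
theorem c_sq {J c : Ideal (𝓞 F)} {s : 𝓞 F} {x : F}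
    (hJ2 : (J : FractionalIdeal (𝓞 F)⁰ F) * J * (1 + spanSingleton (𝓞 F)⁰ x) = 1)
    (hsc : J * c = Ideal.span {s}) :
    (c : FractionalIdeal (𝓞 F)⁰ F) * c =
      spanSingleton (𝓞 F)⁰ ((s : F) * s) * (1 + spanSingleton (𝓞 F)⁰ x) := by
  have h1 : (J : FractionalIdeal (𝓞 F)⁰ F) * c = spanSingleton (𝓞 F)⁰ (s : F) := by
    rw [← coeIdeal_mul, hsc, coeIdeal_span_singleton]
  rw [← spanSingleton_mul_spanSingleton, ← h1]
  calc (c : FractionalIdeal (𝓞 F)⁰ F) * c = 1 * (c * c) := by rw [one_mul]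
    _ = (J : FractionalIdeal (𝓞 F)⁰ F) * J * (1 + spanSingleton (𝓞 F)⁰ x) * (c * c) := by
        rw [hJ2]
    _ = _ := by ring

theorem ex_N2 {c : Ideal (𝓞 F)} {s N : 𝓞 F} {x : F}
    (hc : (c : FractionalIdeal (𝓞 F)⁰ F) * c =
      spanSingleton (𝓞 F)⁰ ((s : F) * s) * (1 + spanSingleton (𝓞 F)⁰ x)) (hN : N ∈ c) :
    ∃ w u : 𝓞 F, (s : F) * s * ((w : F) + (u : F) * x) = (N : F) * N := by
  have hN2 : (N : F) * (N : F) ∈ (c : FractionalIdeal (𝓞 F)⁰ F) * c :=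
    mul_mem_mul (mem_coeIdeal_of_mem _ hN) (mem_coeIdeal_of_mem _ hN)
  rw [hc, mem_singleton_mul] at hN2
  obtain ⟨k, hk, hk2⟩ := hN2
  rw [mem_add] at hk
  obtain ⟨k1, hk1, k2, hk3, hk4⟩ := hk
  obtain ⟨w1, hw1⟩ := (mem_one_iff _).1 hk1
  obtain ⟨u1, hu1⟩ := (mem_spanSingleton _).1 hk3
  rw [Algebra.smul_def] at hu1
  refine ⟨w1, u1, ?_⟩
  rw [hk2, ← hk4, ← hw1, ← hu1]

/-- the final algebra -/
theorem fin_alg {s ρ w u N : 𝓞 F} {x : F} (hρ : (ρ : F) = x * s ^ 2)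
    (h : (s : F) * s * ((w : F) + (u : F) * x) = (N : F) * N) :
    N ^ 6 = ρ * (3 * s ^ 4 * w ^ 2 * u + 3 * s ^ 2 * w * ρ * u ^ 2 + ρ ^ 2 * u ^ 3) +
      s ^ 6 * w ^ 3 := by
  have h3 : (N : F) ^ 2 = (s : F) ^ 2 * (w : F) + (ρ : F) * (u : F) := by
    rw [hρ]
    linear_combination -h
  have h2 : N ^ 2 = s ^ 2 * w + ρ * u := by
    apply RingOfIntegers.ext
    push_cast
    exact h3
  have e6 : N ^ 6 = (N ^ 2) ^ 3 := by ring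
  rw [e6, h2]
  ring

end Pool.Agent.L0h48.NR
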