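import Pool.Agent.L0h48.NR.DENa
import Pool.Agent.L0h48.NR.DENb

/-! Module DEN of project NR (helper50). -/

set_option autoImplicit false

open NumberField FractionalIdeal nonZeroDivisors

namespace Pool.Agent.L0h48.NR

variable {F : Type} [Field F] [NumberField F]

theorem le_one_of_sq {M : FractionalIdeal (𝓞 F)⁰ F} (h : M * M ≤ 1) : M ≤ 1 := by
  intro m hm
  have h1 : m * m ∈ (1 : FractionalIdeal (𝓞 F)⁰ F) := h (mul_mem_mul hm hm)
  obtain ⟨z, hz⟩ := (mem_one_iff _).1 h1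
  have h2 : IsIntegral (𝓞 F) m := by
    apply IsIntegral.of_pow (n := 2) (by norm_num)
    rw [pow_two, ← hz]
    exact isIntegral_algebraMap
  obtain ⟨w, hw⟩ := IsIntegrallyClosed.isIntegral_iff.1 h2
  exact (mem_one_iff _).2 ⟨w, hw⟩

theorem den_aux {A B : 𝓞 F} {x y : F} (hxy : y ^ 2 = x ^ 3 + A * x + B) :
    ∃ J : Ideal (𝓞 F), J ≠ ⊥ ∧
      (J : FractionalIdeal (𝓞 F)⁰ F) * J * (1 + spanSingleton (𝓞 F)⁰ x) = 1 ∧
      (J : FractionalIdeal (𝓞 F)⁰ F) * J * J *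
        (1 + spanSingleton (𝓞 F)⁰ x + spanSingleton (𝓞 F)⁰ y) = 1 := by
  obtain ⟨X, hX⟩ : ∃ X, X = spanSingleton (𝓞 F)⁰ x := ⟨_, rfl⟩
  obtain ⟨Y, hY⟩ : ∃ Y, Y = spanSingleton (𝓞 F)⁰ y := ⟨_, rfl⟩
  rw [← hX, ← hY]
  obtain ⟨K2, hK2⟩ : ∃ K2, K2 = 1 + X := ⟨_, rfl⟩
  obtain ⟨K3, hK3⟩ : ∃ K3, K3 = 1 + X + Y := ⟨_, rfl⟩
  rw [← hK3, ← hK2]
  have l12 : 1 ≤ K2 := by
    rw [hK2, ← sup_eq_add]
    exact le_sup_left
  have lX2 : X ≤ K2 := by
    rw [hK2, ← sup_eq_add]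
    exact le_sup_right
  have l23 : K2 ≤ K3 := by
    rw [hK3, ← hK2, ← sup_eq_add]
    exact le_sup_left
  have lY3 : Y ≤ K3 := by
    rw [hK3, ← sup_eq_add (1 + X) Y]
    exact le_sup_right
  have h20 : K2 ≠ 0 := by
    rintro h
    rw [h] at l12
    exact one_ne_zero (le_bot_iff.1 l12)
  have h30 : K3 ≠ 0 := by
    rintro h
    rw [h] at l23
    exact h20 (le_bot_iff.1 l23)
  have m1 : (1 : F) ∈ K3 := one_le.1 (l12.trans l23)
  have mx : x ∈ K3 := (lX2.trans l23) (hX ▸ mem_spanSingleton_self _ x)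
  have my : y ∈ K3 := lY3 (hY ▸ mem_spanSingleton_self _ y)
  have n1 : (1 : F) ∈ K2 := one_le.1 l12
  have nx : x ∈ K2 := lX2 (hX ▸ mem_spanSingleton_self _ x)
  have smul : ∀ (I : FractionalIdeal (𝓞 F)⁰ F) (a : 𝓞 F) (z : F), z ∈ I → (a : F) * z ∈ I := by
    intro I a z hz
    have := Submodule.smul_mem (I : Submodule (𝓞 F) F) a (mem_coe.2 hz)
    rw [Algebra.smul_def] at this
    exact this
  have add : ∀ (I : FractionalIdeal (𝓞 F)⁰ F) (z w : F), z ∈ I → w ∈ I → z + w ∈ I :=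
    fun I z w hz hw => Submodule.add_mem (I : Submodule (𝓞 F) F) hz hw
  have sub : ∀ (I : FractionalIdeal (𝓞 F)⁰ F) (z w : F), z ∈ I → w ∈ I → z - w ∈ I :=
    fun I z w hz hw => Submodule.sub_mem (I : Submodule (𝓞 F) F) hz hw
  -- the relation between the two ideals
  have hE : K3 * K3 = K2 * K2 * K2 := by
    have g1 : (1 : F) ∈ K2 * K2 * K2 := by
      simpa using mul_mem_mul (mul_mem_mul n1 n1) n1
    have gx : x ∈ K2 * K2 * K2 := by
      simpa using mul_mem_mul (mul_mem_mul n1 n1) nx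
    have gx2 : x * x ∈ K2 * K2 * K2 := by
      simpa using mul_mem_mul (mul_mem_mul nx n1) nx
    have gx3 : x * x * x ∈ K2 * K2 * K2 := mul_mem_mul (mul_mem_mul nx nx) nx
    have gy2 : y * y ∈ K2 * K2 * K2 := by
      have e : y * y = x * x * x + (A : F) * x + (B : F) * 1 := by linear_combination hxy
      rw [e]
      exact add _ _ _ (add _ _ _ gx3 (smul _ A x gx)) (smul _ B 1 g1)
    have L1 : 1 ≤ K2 * K2 * K2 := one_le.2 g1
    obtain ⟨I, hI⟩ : ∃ I, I = K2 * K2 * K2 := ⟨_, rfl⟩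
    have hI0 : I ≠ 0 := by
      rw [hI]
      exact mul_ne_zero (mul_ne_zero h20 h20) h20
    have root : ∀ J : FractionalIdeal (𝓞 F)⁰ F, J * J ≤ I * I → J ≤ I := by
      intro J hJ
      have h1 : (J * I⁻¹) * (J * I⁻¹) ≤ 1 := by
        have h2 : (J * J) * (I⁻¹ * I⁻¹) ≤ (I * I) * (I⁻¹ * I⁻¹) := mul_le_mul_left hJ _
        have e1 : (I * I) * (I⁻¹ * I⁻¹) = 1 := by field_simp
        rw [e1] at h2
        calc (J * I⁻¹) * (J * I⁻¹) = (J * J) * (I⁻¹ * I⁻¹) := by ring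
          _ ≤ 1 := h2
      have h3 := mul_le_mul_left (le_one_of_sq h1) I
      rw [one_mul, mul_assoc, inv_mul_cancel₀ hI0, mul_one] at h3
      exact h3
    have gy : y ∈ I := by
      have h1 : Y ≤ I := by
        apply root
        rw [hY, spanSingleton_mul_spanSingleton, spanSingleton_le_iff_mem]
        have := mul_mem_mul (show y * y ∈ I from hI ▸ gy2) (show (1 : F) ∈ I from hI ▸ g1)
        simpa using this
      exact h1 (hY ▸ mem_spanSingleton_self _ y)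
    have gxy : x * y ∈ I := by
      have h1 : spanSingleton (𝓞 F)⁰ (x * y) ≤ I := by
        apply root
        rw [spanSingleton_mul_spanSingleton, spanSingleton_le_iff_mem]
        have := mul_mem_mul (show x * x ∈ I from hI ▸ gx2) (show y * y ∈ I from hI ▸ gy2)
        have e : x * y * (x * y) = x * x * (y * y) := by ring
        rw [e]
        exact this
      exact h1 (mem_spanSingleton_self _ _)
    apply le_antisymm
    · rw [mul_le]
      have key : ∀ z ∈ K3, ∃ a b c : 𝓞 F, z = (a : F) + b * x + c * y := by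
        intro z hz
        rw [hK3, mem_add] at hz
        obtain ⟨z1, hz1, z2, hz2, rfl⟩ := hz
        rw [mem_add] at hz1
        obtain ⟨z3, hz3, z4, hz4, rfl⟩ := hz1
        obtain ⟨a, rfl⟩ := (mem_one_iff _).1 hz3
        rw [hX] at hz4
        rw [hY] at hz2
        obtain ⟨b, rfl⟩ := (mem_spanSingleton _).1 hz4
        obtain ⟨c, rfl⟩ := (mem_spanSingleton _).1 hz2
        exact ⟨a, b, c, by rw [Algebra.smul_def, Algebra.smul_def]⟩
      intro i hi j hj
      obtain ⟨a, b, c, rfl⟩ := key i hi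
      obtain ⟨a', b', c', rfl⟩ := key j hj
      rw [← hI] at g1 gx gx2 gx3 gy2 ⊢
      have e : ((a : F) + b * x + c * y) * (a' + b' * x + c' * y) =
          ((a * a' : 𝓞 F) : F) * 1 + ((a * b' + a' * b : 𝓞 F) : F) * x +
          ((b * b' : 𝓞 F) : F) * (x * x) + ((a * c' + a' * c : 𝓞 F) : F) * y +
          ((b * c' + b' * c : 𝓞 F) : F) * (x * y) + ((c * c' : 𝓞 F) : F) * (y * y) := by
        push_cast
        ring
      rw [e]
      exact add _ _ _ (add _ _ _ (add _ _ _ (add _ _ _ (add _ _ _ (smul _ _ _ g1) (smul _ _ _ gx))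
        (smul _ _ _ gx2)) (smul _ _ _ gy)) (smul _ _ _ gxy)) (smul _ _ _ gy2)
    · have p1 : (1 : F) ∈ K3 * K3 := by simpa using mul_mem_mul m1 m1
      have px : x ∈ K3 * K3 := by simpa using mul_mem_mul m1 mx
      have px2 : x * x ∈ K3 * K3 := mul_mem_mul mx mx
      have px3 : x * x * x ∈ K3 * K3 := by
        have e : x * x * x = y * y - (A : F) * x - (B : F) * 1 := by linear_combination -hxy
        rw [e]
        exact sub _ _ _ (sub _ _ _ (mul_mem_mul my my) (smul _ A x px)) (smul _ B 1 p1)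
      have key : ∀ z ∈ K2, ∃ a b : 𝓞 F, z = (a : F) + b * x := by
        intro z hz
        rw [hK2, mem_add] at hz
        obtain ⟨z3, hz3, z4, hz4, rfl⟩ := hz
        obtain ⟨a, rfl⟩ := (mem_one_iff _).1 hz3
        rw [hX] at hz4
        obtain ⟨b, rfl⟩ := (mem_spanSingleton _).1 hz4
        exact ⟨a, b, by rw [Algebra.smul_def]⟩
      have key2 : ∀ z ∈ K2 * K2, ∃ a b c : 𝓞 F, z = (a : F) + b * x + c * (x * x) := by
        intro z hz
        have hle : K2 * K2 ≤ 1 + X + X * X := by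
          rw [mul_le]
          intro i hi j hj
          obtain ⟨a, b, rfl⟩ := key i hi
          obtain ⟨a', b', rfl⟩ := key j hj
          rw [mem_add]
          refine ⟨((a * a' : 𝓞 F) : F) + ((a * b' + a' * b : 𝓞 F) : F) * x, ?_,
            ((b * b' : 𝓞 F) : F) * (x * x), ?_, ?_⟩
          · rw [mem_add]
            refine ⟨_, (mem_one_iff _).2 ⟨a * a', rfl⟩, _, ?_, rfl⟩
            rw [hX]
            exact smul _ _ _ (mem_spanSingleton_self _ _)
          · rw [hX, spanSingleton_mul_spanSingleton]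
            exact smul _ _ _ (mem_spanSingleton_self _ _)
          · push_cast
            ring
        have hz' := hle hz
        rw [mem_add] at hz'
        obtain ⟨z1, hz1, z2, hz2, rfl⟩ := hz'
        rw [mem_add] at hz1
        obtain ⟨z3, hz3, z4, hz4, rfl⟩ := hz1
        obtain ⟨a, rfl⟩ := (mem_one_iff _).1 hz3
        rw [hX] at hz4
        rw [hX, spanSingleton_mul_spanSingleton] at hz2
        obtain ⟨b, rfl⟩ := (mem_spanSingleton _).1 hz4
        obtain ⟨c, rfl⟩ := (mem_spanSingleton _).1 hz2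
        exact ⟨a, b, c, by rw [Algebra.smul_def, Algebra.smul_def]⟩
      rw [mul_le]
      intro i hi j hj
      obtain ⟨a, b, c, rfl⟩ := key2 i hi
      obtain ⟨a', b', rfl⟩ := key j hj
      have e : ((a : F) + b * x + c * (x * x)) * (a' + b' * x) =
          ((a * a' : 𝓞 F) : F) * 1 + ((a * b' + a' * b : 𝓞 F) : F) * x +
          ((b * b' + c * a' : 𝓞 F) : F) * (x * x) + ((c * b' : 𝓞 F) : F) * (x * x * x) := by
        push_cast
        ring
      rw [e]
      exact add _ _ _ (add _ _ _ (add _ _ _ (smul _ _ _ p1) (smul _ _ _ px)) (smul _ _ _ px2))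
        (smul _ _ _ px3)
  obtain ⟨S, hS⟩ : ∃ S, S = K2 * K3⁻¹ := ⟨_, rfl⟩
  have hS2 : S * S * K2 = 1 := by
    calc S * S * K2 = (K2 * K2 * K2) * (K3⁻¹ * K3⁻¹) := by rw [hS]; ring
      _ = 1 := by rw [← hE]; field_simp
  have hS3 : S * S * S * K3 = 1 := by
    calc S * S * S * K3 = S * S * (K2 * (K3⁻¹ * K3)) := by
          nth_rewrite 3 [hS]
          ring
      _ = 1 := by rw [inv_mul_cancel₀ h30, mul_one, hS2]
  have hSle : S ≤ 1 := by
    apply le_one_of_sq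
    calc S * S = S * S * 1 := by rw [mul_one]
      _ ≤ S * S * K2 := mul_le_mul_right l12 _
      _ = 1 := hS2
  obtain ⟨J, hJ⟩ := le_one_iff_exists_coeIdeal.1 hSle
  refine ⟨J, ?_, by rw [hJ]; exact hS2, by rw [hJ]; exact hS3⟩
  rintro rfl
  rw [coeIdeal_bot] at hJ
  rw [← hJ] at hS2
  simp at hS2

theorem den : Pool.Agent.L0h50.NR.S_DEN := by
  intro F _ _
  obtain ⟨N, hN, hS⟩ := exists_N F
  refine ⟨N ^ 6, pow_pos hN 6, ?_⟩
  intro A B x y hxy
  obtain ⟨J, hJ0, hJ2, hJ3⟩ := den_aux hxy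
  obtain ⟨c, s, hs0, hsc, hNc⟩ := hS J hJ0
  have hsJ := mem_J (F := F) hsc
  obtain ⟨ρ, hρ⟩ := ex_rho hJ2 hsJ
  obtain ⟨t, ht⟩ := ex_t hJ3 hsJ
  obtain ⟨w, u, hwu⟩ := ex_N2 (c_sq hJ2 hsc) hNc
  refine ⟨s, ρ, t, 3 * s ^ 4 * w ^ 2 * u + 3 * s ^ 2 * w * ρ * u ^ 2 + ρ ^ 2 * u ^ 3, w ^ 3,
    hs0, hρ, ht, ?_⟩
  have h6 := fin_alg hρ hwu
  rw [← h6, Nat.cast_pow]

end Pool.Agent.L0h48.NR
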