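import Pool.Agent.L0h50.NR.Stm

/-! Module DEN of project NR (helper50), first part: principal multiples. -/

set_option autoImplicit false

open NumberField FractionalIdeal nonZeroDivisors

namespace Pool.Agent.L0h48.NR

/-- General form over a Dedekind domain with an explicit family of representatives. -/
theorem exists_mult {R : Type} [CommRing R] [IsDomain R] [IsDedekindDomain R]
    (I : ClassGroup R → (Ideal R)⁰) (hI : ∀ C, ClassGroup.mk0 (I C) = C)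
    (S : Ideal R) (hS : S ≠ ⊥) :
    ∃ (C : ClassGroup R) (s : R), s ≠ 0 ∧ S * (I C : Ideal R) = Ideal.span {s} := by
  have hS' : S ∈ (Ideal R)⁰ := mem_nonZeroDivisors_of_ne_zero hS
  have h1 : ClassGroup.mk0 (⟨S, hS'⟩ : (Ideal R)⁰) =
      (ClassGroup.mk0 (I ((ClassGroup.mk0 (⟨S, hS'⟩ : (Ideal R)⁰))⁻¹)))⁻¹ := by
    rw [hI, inv_inv]
  obtain ⟨s, hs0, hs⟩ := ClassGroup.mk0_eq_mk0_inv_iff.1 h1
  exact ⟨_, s, hs0, hs⟩

theorem exists_N (F : Type) [Field F] [NumberField F] :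
    ∃ N : ℕ, 0 < N ∧ ∀ S : Ideal (𝓞 F), S ≠ ⊥ →
    ∃ (c : Ideal (𝓞 F)) (s : 𝓞 F), s ≠ 0 ∧ S * c = Ideal.span {s} ∧ (N : 𝓞 F) ∈ c := by
  classical
  choose I hI using fun C : ClassGroup (𝓞 F) => ClassGroup.mk0_surjective C
  refine ⟨∏ C : ClassGroup (𝓞 F), Ideal.absNorm (I C : Ideal (𝓞 F)), ?_, ?_⟩
  · apply Finset.prod_pos
    intro C _
    apply Nat.pos_of_ne_zero
    intro h
    exact nonZeroDivisors.coe_ne_zero (I C) (Ideal.absNorm_eq_zero_iff.1 h)
  · intro S hS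
    obtain ⟨C, s, hs0, hs⟩ := exists_mult I hI S hS
    refine ⟨I C, s, hs0, hs, ?_⟩
    rw [← Finset.mul_prod_erase _ _ (Finset.mem_univ C), Nat.cast_mul]
    exact Ideal.mul_mem_right _ _ (Ideal.absNorm_mem _)

end Pool.Agent.L0h48.NR
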